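import Mathlib
import Pool.Agent.H894R3.Core
import Pool.Agent.H894R3.Simp

/-!
# Triangles with boundary in sets of large Beer index
-/

set_option autoImplicit false

namespace Pool.Agent.Results.MP_40f41c_co.TriangleBoundary

open MeasureTheory Set
open scoped ENNReal Pointwise

/-- The plane. -/
abbrev Plane : Type := EuclideanSpace ℝ (Fin 2)

/-- The set of pairs of points of `S` which see each other via `S`. -/
def Seg (S : Set Plane) : Set (Plane × Plane) :=
  {p | p.1 ∈ S ∧ p.2 ∈ S ∧ segment ℝ p.1 p.2 ⊆ S}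

/-- The core theorem, with the simplices controlled by the set `E` only. -/
theorem core' (k m : ℕ) (ε : ℝ) (hε : 0 < ε) : ∃ δ : ℝ, 0 < δ ∧
    ∀ S : Set (Fin (k + 1 + m) → ℝ), MeasurableSet S → volume S ≤ 1 →
      ∀ E : Set (Fin (k + 2) → (Fin (k + 1 + m) → ℝ)), MeasurableSet E →
      (∀ x ∈ E, convexHull ℝ (range x) ⊆ S) → ENNReal.ofReal ε ≤ volume E →
      ∃ X : Fin (k + 1 + m + 1) → (Fin (k + 1 + m) → ℝ),
        δ ≤ |(Matrix.of fun i : Fin (k + 1 + m) => X i.succ - X 0).det| ∧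
        ∀ s : Finset (Fin (k + 1 + m + 1)), s.card = k + 2 →
          ∃ y ∈ E, convexHull ℝ (X '' (s : Set (Fin (k + 1 + m + 1)))) ⊆
            convexHull ℝ (range y) := by
  obtain ⟨η, R, κ, hη, hκ, hpre⟩ :=
    Pool.Agent.H894R3.Core.pre' (k + 1 + m) k (by omega) ε hε
  obtain ⟨δ, hδ, htee⟩ := Pool.Agent.H894R3.Tee.tee (k + 1) m R κ hκ
  refine ⟨δ * η, by positivity, ?_⟩
  intro S hS hS1 E hE hhull hEε
  obtain ⟨T, a, hT, hv⟩ := hpre S hS hS1 E hE hhull hEε
  have hTcont : Continuous T := T.continuous_of_finiteDimensional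
  have hm : MeasurableSet ({ν : Fin (k + 2) → (Fin (k + 1 + m) → ℝ) | (fun i => T (ν i + a)) ∈ E} ∩
          Metric.closedBall 0 R) := by
    refine MeasurableSet.inter ?_ Metric.isClosed_closedBall.measurableSet
    have : Continuous fun ν : Fin (k + 2) → (Fin (k + 1 + m) → ℝ) => (fun i => T (ν i + a)) := by
      fun_prop
    exact this.measurable hE
  obtain ⟨X, hX1, hX2⟩ := htee _ hm inter_subset_right hv
  refine ⟨fun i => T (X i + a), ?_, ?_⟩
  · have h1 : (Matrix.of fun i : Fin (k + 1 + m) => T (X i.succ + a) - T (X 0 + a)) =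
        (Matrix.of fun i : Fin (k + 1 + m) => X i.succ - X 0) * (LinearMap.toMatrix' T).transpose := by
      ext i j
      have h2 : T (X i.succ + a) - T (X 0 + a) = T (X i.succ - X 0) := by
        rw [← map_sub]; congr 1; abel
      have h3 : T (X i.succ - X 0) = (LinearMap.toMatrix' T).mulVec (X i.succ - X 0) := by
        rw [← Matrix.toLin'_apply, Matrix.toLin'_toMatrix']
      rw [Matrix.of_apply, h2, h3]
      simp only [Matrix.mulVec, dotProduct, Matrix.mul_apply, Matrix.of_apply, Matrix.transpose_apply]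
      refine Finset.sum_congr rfl fun l _ => ?_
      ring
    rw [h1, Matrix.det_mul, abs_mul, Matrix.det_transpose, LinearMap.det_toMatrix']
    exact mul_le_mul hX1 hT hη.le (abs_nonneg _)
  · intro s hs
    obtain ⟨y, hy, hys⟩ := hX2 s hs
    refine ⟨_, hy.1, convexHull_min ?_ (convex_convexHull ℝ _)⟩
    rintro _ ⟨i, hi, rfl⟩
    have h2 := hys i hi
    let Af : (Fin (k + 1 + m) → ℝ) →ᵃ[ℝ] (Fin (k + 1 + m) → ℝ) :=
      T.toAffineMap.comp (AffineMap.id ℝ _ + AffineMap.const ℝ _ a)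
    have h3 : (range fun i => T (y i + a)) = Af '' (range y) := by
      rw [← range_comp]; rfl
    rw [h3, ← AffineMap.image_convexHull]
    exact ⟨X i, h2, rfl⟩

/-- For every `ε > 0` there is `δ > 0` such that every Lebesgue measurable planar set `S` of
positive finite area whose Beer index is defined and at least `ε` contains the boundary of a
triangle `ABC` whose area is at least `δ` times the area of `S`. -/
theorem result (ε : ℝ) (hε : 0 < ε) : ∃ δ : ℝ, 0 < δ ∧
    ∀ S : Set Plane, NullMeasurableSet S volume → 0 < volume S → volume S < ⊤ →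
      NullMeasurableSet (Seg S) volume →
      ε ≤ (volume (Seg S)).toReal / (volume S).toReal ^ 2 →
      ∃ A B C : Plane, AffineIndependent ℝ ![A, B, C] ∧
        δ * (volume S).toReal ≤ (volume (convexHull ℝ {A, B, C})).toReal ∧
        segment ℝ A B ∪ segment ℝ B C ∪ segment ℝ C A ⊆ S := by
  obtain ⟨δ, hδ, hcore⟩ := core' 0 1 ε hε
  have hvs := Pool.Agent.H894R3.Simp.vs_pos 2
  refine ⟨δ * Pool.Agent.H894R3.Simp.vs 2, by positivity, ?_⟩
  intro S hS hS0 hSfin hSeg hb
  set V0 : ℝ := (volume S).toReal with hV0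
  have hV0pos : 0 < V0 := ENNReal.toReal_pos hS0.ne' hSfin.ne
  have hvolS : volume S = ENNReal.ofReal V0 := (ENNReal.ofReal_toReal hSfin.ne).symm
  -- Borel hull of `S` and Borel kernel of `Seg S`
  obtain ⟨S', hSS', hS'm, hS'ae⟩ := hS.exists_measurable_superset_ae_eq
  obtain ⟨E, hEsub, hEm, hEae⟩ := hSeg.exists_measurable_subset_ae_eq
  have hS'v : volume S' = ENNReal.ofReal V0 := by rw [measure_congr hS'ae, hvolS]
  have hEv : volume E = volume (Seg S) := measure_congr hEae
  set lam : ℝ := (V0⁻¹) ^ ((2 : ℝ)⁻¹) with hlam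
  have hlampos : 0 < lam := Real.rpow_pos_of_pos (inv_pos.2 hV0pos) _
  have hlamd : lam ^ 2 = V0⁻¹ := by
    have := Real.rpow_inv_natCast_pow (inv_pos.2 hV0pos).le (two_ne_zero)
    exact_mod_cast this
  let Ψ : (Fin 2 → ℝ) →ₗ[ℝ] Plane :=
    (WithLp.linearEquiv 2 ℝ (Fin 2 → ℝ)).symm.toLinearMap.comp (lam⁻¹ • LinearMap.id)
  have hΨ : ∀ y, Ψ y = WithLp.toLp 2 (lam⁻¹ • y) := fun y => rfl
  have hΨinj : Function.Injective Ψ := by
    intro y y' h
    rw [hΨ, hΨ] at h
    have h1 : lam⁻¹ • y = lam⁻¹ • y' := congrArg WithLp.ofLp h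
    exact smul_right_injective _ (inv_ne_zero hlampos.ne') h1
  have mp1 : MeasurePreserving (WithLp.toLp 2 : (Fin 2 → ℝ) → Plane) :=
    PiLp.volume_preserving_toLp (Fin 2)
  let S0 : Set (Fin 2 → ℝ) := (WithLp.toLp 2 : (Fin 2 → ℝ) → Plane) ⁻¹' S'
  have hS0m : MeasurableSet S0 := mp1.measurable hS'm
  have hS0v : volume S0 = ENNReal.ofReal V0 := by
    rw [← hS'v]; exact mp1.measure_preimage hS'm.nullMeasurableSet
  let S1 : Set (Fin 2 → ℝ) := lam • S0
  have hS1m : MeasurableSet S1 := hS0m.const_smul₀ _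
  have hS1v : volume S1 = 1 := by
    simp only [S1]
    rw [Measure.addHaar_smul, Module.finrank_fin_fun, hlamd, hS0v, abs_of_pos (inv_pos.2 hV0pos),
      ← ENNReal.ofReal_mul (inv_pos.2 hV0pos).le, inv_mul_cancel₀ hV0pos.ne', ENNReal.ofReal_one]
  -- the set of pairs
  let E0 : Set (Fin 2 → Plane) := (MeasurableEquiv.finTwoArrow : (Fin 2 → Plane) ≃ᵐ _) ⁻¹' E
  have hE0m : MeasurableSet E0 := MeasurableEquiv.finTwoArrow.measurable hEm
  have hE0v : volume E0 = volume E :=
    (volume_preserving_finTwoArrow Plane).measure_preimage hEm.nullMeasurableSet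
  let E00 : Set (Fin 2 → (Fin 2 → ℝ)) := (fun (x : Fin 2 → (Fin 2 → ℝ)) i =>
    (WithLp.toLp 2 (x i) : Plane)) ⁻¹' E0
  have mpi : MeasurePreserving (fun (x : Fin 2 → (Fin 2 → ℝ)) i =>
        (WithLp.toLp 2 (x i) : Plane)) := volume_preserving_pi fun _ => mp1
  have hE00m : MeasurableSet E00 := mpi.measurable hE0m
  have hE00v : volume E00 = volume E0 := mpi.measure_preimage hE0m.nullMeasurableSet
  let E1 : Set (Fin 2 → (Fin 2 → ℝ)) := lam • E00
  have hE1m : MeasurableSet E1 := hE00m.const_smul₀ _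
  have hE1v : volume E1 = ENNReal.ofReal ((V0⁻¹) ^ 2) * volume (Seg S) := by
    simp only [E1]
    rw [Measure.addHaar_smul, hE00v, hE0v, hEv]
    congr 2
    have : Module.finrank ℝ (Fin 2 → (Fin 2 → ℝ)) = 2 * 2 := by
      rw [Module.finrank_pi_fintype]
      simp
    rw [this, pow_mul, hlamd, abs_of_pos (by positivity)]
  have hE1 : ENNReal.ofReal ε ≤ volume E1 := by
    calc ENNReal.ofReal ε ≤ ENNReal.ofReal ((volume (Seg S)).toReal / V0 ^ 2) :=
          ENNReal.ofReal_le_ofReal hb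
      _ = ENNReal.ofReal ((V0⁻¹) ^ 2) * ENNReal.ofReal (volume (Seg S)).toReal := by
          rw [← ENNReal.ofReal_mul (by positivity)]
          congr 1
          rw [inv_pow]; field_simp
      _ ≤ ENNReal.ofReal ((V0⁻¹) ^ 2) * volume (Seg S) := by
          gcongr
          exact ENNReal.ofReal_toReal_le
      _ = _ := hE1v.symm
  have hinv : ∀ y ∈ E1, segment ℝ (Ψ (y 0)) (Ψ (y 1)) ⊆ S := by
    rintro _ ⟨x, hx, rfl⟩
    have h1 : (WithLp.toLp 2 (x 0), WithLp.toLp 2 (x 1)) ∈ E := hx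
    have h2 : ∀ i, Ψ ((lam • x) i) = WithLp.toLp 2 (x i) := by
      intro i
      rw [hΨ, Pi.smul_apply, smul_smul, inv_mul_cancel₀ hlampos.ne', one_smul]
    have h3 := (hEsub h1).2.2
    show segment ℝ (Ψ ((lam • x) 0)) (Ψ ((lam • x) 1)) ⊆ S
    rw [h2, h2]
    exact h3
  have hhull : ∀ y : Fin 2 → (Fin 2 → ℝ), Ψ '' (convexHull ℝ (range y)) =
      segment ℝ (Ψ (y 0)) (Ψ (y 1)) := by
    intro y
    rw [← convexHull_pair, LinearMap.image_convexHull]
    congr 1
    ext z
    simp only [mem_image, mem_range, mem_insert_iff, mem_singleton_iff, exists_exists_eq_and]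
    constructor
    · rintro ⟨i, rfl⟩
      fin_cases i
      · exact Or.inl rfl
      · exact Or.inr rfl
    · rintro (rfl | rfl)
      · exact ⟨0, rfl⟩
      · exact ⟨1, rfl⟩
  have hS1mem : ∀ z : Fin 2 → ℝ, Ψ z ∈ S' → z ∈ S1 := by
    intro z hz
    refine ⟨lam⁻¹ • z, hz, ?_⟩
    show lam • (lam⁻¹ • z) = z
    rw [smul_smul, mul_inv_cancel₀ hlampos.ne', one_smul]
  obtain ⟨X, hX1, hX2⟩ := hcore S1 hS1m hS1v.le E1 hE1m (by
    intro y hy z hz
    apply hS1mem
    apply hSS'
    apply hinv y hy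
    rw [← hhull]
    exact ⟨z, hz, rfl⟩) hE1
  have hdet0 : (Matrix.of fun i : Fin 2 => X i.succ - X 0).det ≠ 0 := by
    intro h
    have hX1' : δ ≤ |(Matrix.of fun i : Fin 2 => X i.succ - X 0).det| := hX1
    rw [h, abs_zero] at hX1'
    linarith
  have haff : AffineIndependent ℝ (fun i => Ψ (X i)) :=
    (Pool.Agent.H894R3.Simp.aff_indep 2 X hdet0).map' Ψ.toAffineMap hΨinj
  have hside : ∀ i j : Fin 3, i ≠ j → segment ℝ (Ψ (X i)) (Ψ (X j)) ⊆ S := by
    intro i j hij
    obtain ⟨y, hy, hyX⟩ := hX2 {i, j} (Finset.card_pair hij)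
    refine subset_trans ?_ (hinv y hy)
    rw [← hhull, ← convexHull_pair]
    have h1 : ({Ψ (X i), Ψ (X j)} : Set Plane) = Ψ '' {X i, X j} := by
      rw [image_pair]
    rw [h1, ← LinearMap.image_convexHull]
    refine image_mono (subset_trans ?_ hyX)
    apply convexHull_mono
    rintro z (rfl | rfl)
    · exact ⟨i, by simp, rfl⟩
    · exact ⟨j, by simp, rfl⟩
  refine ⟨Ψ (X 0), Ψ (X 1), Ψ (X 2), ?_, ?_, ?_⟩
  · convert haff using 1
    funext i
    fin_cases i <;> rfl
  · have hset : ({Ψ (X 0), Ψ (X 1), Ψ (X 2)} : Set Plane) = Ψ '' range X := by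
      ext z
      simp only [mem_insert_iff, mem_singleton_iff, mem_image, mem_range, exists_exists_eq_and]
      constructor
      · rintro (rfl | rfl | rfl)
        · exact ⟨0, rfl⟩
        · exact ⟨1, rfl⟩
        · exact ⟨2, rfl⟩
      · rintro ⟨i, rfl⟩
        fin_cases i
        · exact Or.inl rfl
        · exact Or.inr (Or.inl rfl)
        · exact Or.inr (Or.inr rfl)
    have h1 : (WithLp.toLp 2 : (Fin 2 → ℝ) → Plane) ⁻¹'
        (convexHull ℝ {Ψ (X 0), Ψ (X 1), Ψ (X 2)}) = lam⁻¹ • convexHull ℝ (range X) := by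
      rw [hset, ← LinearMap.image_convexHull]
      ext y
      constructor
      · rintro ⟨z, hz, hzy⟩
        rw [hΨ] at hzy
        have h2 : lam⁻¹ • z = y := congrArg WithLp.ofLp hzy
        rw [← h2]
        exact smul_mem_smul_set hz
      · rintro ⟨z, hz, rfl⟩
        exact ⟨z, hz, rfl⟩
    have h2 : volume (lam⁻¹ • convexHull ℝ (range X)) ≤
        volume (convexHull ℝ {Ψ (X 0), Ψ (X 1), Ψ (X 2)}) := by
      rw [← h1]
      exact mp1.measure_preimage_le _
    have hfin : volume (convexHull ℝ {Ψ (X 0), Ψ (X 1), Ψ (X 2)}) ≠ ⊤ :=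
      ((((finite_singleton _).insert _).insert _).isCompact_convexHull (𝕜 := ℝ)).measure_lt_top.ne
    have h3 : ENNReal.ofReal (δ * Pool.Agent.H894R3.Simp.vs 2 * V0) ≤
        volume (convexHull ℝ {Ψ (X 0), Ψ (X 1), Ψ (X 2)}) := by
      refine le_trans ?_ h2
      rw [Measure.addHaar_smul, Module.finrank_fin_fun, inv_pow, hlamd, inv_inv,
        Pool.Agent.H894R3.Simp.vol_simplex 2 X, abs_of_pos hV0pos,
        ← ENNReal.ofReal_mul (abs_nonneg _), ← ENNReal.ofReal_mul hV0pos.le]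
      apply ENNReal.ofReal_le_ofReal
      have : δ * Pool.Agent.H894R3.Simp.vs 2 ≤
          |(Matrix.of fun i : Fin 2 => X i.succ - X 0).det| * Pool.Agent.H894R3.Simp.vs 2 :=
        mul_le_mul_of_nonneg_right hX1 hvs.le
      nlinarith
    have h4 := ENNReal.toReal_mono hfin h3
    rwa [ENNReal.toReal_ofReal (by positivity)] at h4
  · exact union_subset (union_subset (hside 0 1 (by decide)) (hside 1 2 (by decide)))
      (hside 2 0 (by decide))

end Pool.Agent.Results.MP_40f41c_co.TriangleBoundary
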